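import Pool.Agent.Helper86.TH.R2

/-!
# TH, block R
-/

set_option autoImplicit false

namespace Pool.Agent.Helper86.TH

open Polynomial NumberField
open Pool.Agent.Helper61.TH

noncomputable section

/-- **Block R**: reduction modulo a prime of degree one of an extension. -/
theorem blockR (K : Type) [Field K] [NumberField K] {s : ℕ} (d : Fin s → ℕ) (hd : ∀ a, 2 ≤ d a)
    (c : Idx d → K) (γ : AlgebraicClosure K ≃ₐ[K] AlgebraicClosure K) (hc : Star c γ) :
    ∃ (M : Type) (_ : Field M) (_ : NumberField M) (_ : Algebra K M) (p : ℕ) (_ : Fact p.Prime)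
      (ψ : 𝓞 M →+* ZMod p) (N : ℕ) (c' : Idx d → 𝓞 K), 3 ≤ p ∧ N ≠ 0 ∧
      (∀ q, (c' q : K) = N * c q) ∧ HypU (fun q => ψ (algebraMap (𝓞 K) (𝓞 M) (c' q))) := by
  classical
  let Ω := AlgebraicClosure K
  let S : Set Ω := ⋃ a, (wr c a).rootSet Ω
  have hSfin : Finite S := by
    have : S.Finite := Set.finite_iUnion fun a => rootSet_finite _ _
    exact this.to_subtype
  let M : IntermediateField K Ω := IntermediateField.adjoin K S
  have hfin : FiniteDimensional K M := IntermediateField.finiteDimensional_adjoin fun x _ =>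
    Algebra.IsIntegral.isIntegral x
  have hwr0 : ∀ a, wr c a ≠ 0 := by
    intro a h0
    apply hc.top a
    rw [h0, coeff_zero]
  have hroot : ∀ a (z : Ω), aeval z (wr c a) = 0 → z ∈ M := by
    intro a z hz
    apply IntermediateField.subset_adjoin K S
    exact Set.mem_iUnion.2 ⟨a, (mem_rootSet_of_ne (hwr0 a)).2 hz⟩
  have hfix : ∀ x ∈ M, γ x = x := by
    have h1 : M ≤ IntermediateField.fixedField (Subgroup.zpowers γ) := by
      rw [IntermediateField.adjoin_le_iff]
      intro z hz
      obtain ⟨a, ha⟩ := Set.mem_iUnion.1 hz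
      have h2 := hc.fix a z ((mem_rootSet_of_ne (hwr0 a)).1 ha)
      rintro ⟨g, hg⟩
      obtain ⟨n, rfl⟩ := Subgroup.mem_zpowers_iff.1 hg
      have h3 : γ ∈ MulAction.stabilizer (Ω ≃ₐ[K] Ω) z := h2
      exact Subgroup.zpow_mem _ h3 n
    intro x hx
    exact h1 hx ⟨γ, Subgroup.mem_zpowers γ⟩
  have hnf : NumberField M :=
    { to_charZero := charZero_of_injective_algebraMap (algebraMap K M).injective
      to_finiteDimensional := by
        have : Module.Finite ℚ K := inferInstance
        exact Module.Finite.trans K M }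
  let γM : Ω ≃ₐ[M] Ω := IntermediateField.fixingSubgroupEquiv M
    ⟨γ, (IntermediateField.mem_fixingSubgroup_iff M γ).2 hfix⟩
  have hγM : ∀ x, γM x = γ x := fun x => rfl
  have haev : ∀ (a : Fin s) (z : M), aeval z (wr c a) = 0 → aeval (z : Ω) (wr c a) = 0 := by
    intro a z hz
    have h1 := aeval_algebraMap_apply Ω z (wr c a)
    rw [hz, map_zero] at h1
    exact h1
  have hcore := core (K := K) (M := M) (Ω := Ω) hd c γM hc.top
    (fun a => ?_) (fun a b z hz h0 => ?_) (fun a b z y hz hy h0 => ?_)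
  · obtain ⟨p, hp, ψ, N, c', h⟩ := hcore
    exact ⟨M, inferInstance, hnf, inferInstance, p, hp, ψ, N, c', h⟩
  · refine IntermediateField.splits_of_splits (IsAlgClosed.splits _) fun x hx => ?_
    exact hroot a x ((mem_rootSet_of_ne (hwr0 a)).1 hx)
  · apply hc.lead a b (z : Ω) (haev a z hz)
    have h1 := congrArg (algebraMap M Ω) h0
    rw [map_mul, ← IsScalarTower.algebraMap_apply K M Ω, ← IsScalarTower.algebraMap_apply K M Ω]
      at h1
    exact h1
  · exact hc.move a b (z : Ω) y (haev a z hz) hy h0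

end

end Pool.Agent.Helper86.TH
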