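import Pool.Agent.Helper61.TH.Defs

/-!
# TH, block R: the reduction modulo a prime of degree one, core
-/

set_option autoImplicit false

namespace Pool.Agent.Helper86.TH

open Polynomial NumberField
open Pool.Agent.Helper61.TH

noncomputable section

section basic

variable {s : ℕ} {d : Fin s → ℕ} {R : Type*} [CommRing R]

theorem coeff_pl (c : Idx d → R) (a : Fin s) (i : Fin 2) (n : ℕ) :
    (pl c a i).coeff n = if h : n < d a + 1 then c ⟨a, (i, ⟨n, h⟩)⟩ else 0 := by
  rw [pl, finsetSum_coeff]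
  simp_rw [coeff_C_mul_X_pow]
  split_ifs with h
  · rw [Finset.sum_eq_single ⟨n, h⟩]
    · simp
    · intro j _ hj
      rw [if_neg]
      intro hn
      exact hj (Fin.ext hn.symm)
    · intro hn
      exact absurd (Finset.mem_univ _) hn
  · refine Finset.sum_eq_zero fun j _ => ?_
    rw [if_neg]
    intro hn
    exact h (hn ▸ j.2)

theorem coeff_pl_top (c : Idx d → R) (a : Fin s) (i : Fin 2) : (pl c a i).coeff (d a) = lc c a i := by
  rw [coeff_pl, dif_pos (Nat.lt_succ_self _)]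
  rfl

theorem natDegree_pl (c : Idx d → R) (a : Fin s) (i : Fin 2) : (pl c a i).natDegree ≤ d a := by
  rw [natDegree_le_iff_coeff_eq_zero]
  intro n hn
  rw [coeff_pl, dif_neg (by omega)]

/-- scaling of the coefficient vector -/
theorem pl_scale (N : R) (c c' : Idx d → R) (h : ∀ q, c' q = N * c q) (a : Fin s) (i : Fin 2) :
    pl c' a i = C N * pl c a i := by
  rw [pl, pl, Finset.mul_sum]
  refine Finset.sum_congr rfl fun j _ => ?_
  rw [h, C_mul, mul_assoc]

theorem wr_scale (N : R) (c c' : Idx d → R) (h : ∀ q, c' q = N * c q) (a : Fin s) :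
    wr c' a = C (N ^ 2) * wr c a := by
  rw [wr, wr, pl_scale N c c' h, pl_scale N c c' h, derivative_C_mul, derivative_C_mul, C_pow]
  ring

end basic

section den

variable {M : Type} [Field M] [NumberField M]

theorem exists_nat_mult (x : 𝓞 M) (hx : x ≠ 0) : ∃ n : ℕ, n ≠ 0 ∧ x ∣ (n : 𝓞 M) := by
  refine ⟨Ideal.absNorm (Ideal.span {x}), ?_, ?_⟩
  · rw [Ne, Ideal.absNorm_eq_zero_iff, Ideal.span_singleton_eq_bot]
    exact hx
  · exact Ideal.mem_span_singleton.1 (Ideal.absNorm_mem _)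

theorem exists_den (S : Finset M) : ∃ N : ℕ, N ≠ 0 ∧ ∀ x ∈ S, ∃ x' : 𝓞 M, (x' : M) = N * x := by
  obtain ⟨b, hb⟩ := IsLocalization.exist_integer_multiples_of_finset (nonZeroDivisors (𝓞 M)) S
  obtain ⟨n, hn, e, he⟩ := exists_nat_mult (b : 𝓞 M) (nonZeroDivisors.coe_ne_zero b)
  refine ⟨n, hn, fun x hx => ?_⟩
  obtain ⟨y, hy⟩ := hb x hx
  refine ⟨e * y, ?_⟩
  have h1 : ((n : ℕ) : M) = algebraMap (𝓞 M) M ((b : 𝓞 M) * e) := by
    rw [← he, map_natCast]
  rw [h1]
  change algebraMap (𝓞 M) M (e * y) = _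
  rw [map_mul, hy, map_mul, Algebra.smul_def]
  ring

end den

end

end Pool.Agent.Helper86.TH
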