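import Pool.Agent.Helper53.SCD.Final

/-!
# TH, block R: a prime of degree one without roots
-/

set_option autoImplicit false

namespace Pool.Agent.Helper86.TH

open Polynomial NumberField Filter Topology

noncomputable section

theorem exists_prime {M : Type} [Field M] [NumberField M] {Ω : Type} [Field Ω] [Algebra M Ω]
    [IsAlgClosed Ω] (γ : Ω ≃ₐ[M] Ω) (h : (𝓞 M)[X]) (hm : h.Monic)
    (hmove : ∀ w : Ω, eval₂ ((algebraMap M Ω).comp (algebraMap (𝓞 M) M)) w h = 0 → γ w ≠ w)
    (bad : ℕ) (hbad : bad ≠ 0) :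
    ∃ (p : ℕ) (_ : Fact p.Prime) (ψ : 𝓞 M →+* ZMod p), ¬ p ∣ bad ∧
      ∀ a, (h.map ψ).eval a ≠ 0 := by
  classical
  by_contra hno
  push Not at hno
  let L := (h.map (algebraMap (𝓞 M) M)).SplittingField
  have hL0 : CharZero L := charZero_of_injective_algebraMap (algebraMap M L).injective
  have hLfin : FiniteDimensional M L := inferInstance
  have hLnf : NumberField L :=
    { to_charZero := hL0
      to_finiteDimensional := by
        have : Module.Finite ℚ M := inferInstance
        exact Module.Finite.trans M L }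
  have hLn : Normal M L := Normal.of_isSplittingField (h.map (algebraMap (𝓞 M) M))
  have hLgal : IsGalois M L := ⟨⟩
  have hs : ((h.map (algebraMap (𝓞 M) M)).map (algebraMap M L)).Splits :=
    SplittingField.splits _
  let φ : L →ₐ[M] Ω := IsAlgClosed.lift
  let _ : Algebra L Ω := φ.toRingHom.toAlgebra
  have hφ : ∀ x : L, algebraMap L Ω x = φ x := fun x => rfl
  have : IsScalarTower M L Ω := IsScalarTower.of_algebraMap_eq fun x => (φ.commutes x).symm
  let g : L ≃ₐ[M] L := AlgEquiv.restrictNormal γ L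
  have hg : ∀ x : L, φ (g x) = γ (φ x) := AlgEquiv.restrictNormal_commutes γ L
  have hfree : ∃ g : L ≃ₐ[M] L, ∀ ω : Pool.Agent.H53SCD.Om L h, g • ω ≠ ω := by
    refine ⟨g, fun ω hω => ?_⟩
    have h1 : eval₂ (algebraMap (𝓞 M) (𝓞 L)) (ω : 𝓞 L) h = 0 := ω.2
    have h2 : g (((ω : 𝓞 L)) : L) = (((ω : 𝓞 L)) : L) := by
      have h3 := congrArg (fun z : Pool.Agent.H53SCD.Om L h => ((z : 𝓞 L) : L)) hω
      exact h3
    apply hmove (φ (((ω : 𝓞 L)) : L))
    · have h4 := congrArg (φ.toRingHom.comp (algebraMap (𝓞 L) L)) h1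
      rw [Polynomial.hom_eval₂, map_zero] at h4
      have h5 : (φ.toRingHom.comp (algebraMap (𝓞 L) L)).comp (algebraMap (𝓞 M) (𝓞 L)) =
          (algebraMap M Ω).comp (algebraMap (𝓞 M) M) := by
        ext b
        exact φ.commutes _
      rw [h5] at h4
      exact h4
    · rw [← hg, h2]
  obtain ⟨δ, C₀, hδ, hev⟩ := Pool.Agent.H53SCD.SS_bound L h hm hs hfree bad hbad
  have hSS : Pool.Agent.H53SCD.SS M h bad = ∅ := by
    rw [Set.eq_empty_iff_forall_notMem]
    rintro p ⟨hp, hpb, ψ, hψ⟩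
    obtain ⟨a, ha⟩ := hno p ⟨hp⟩ ψ hpb
    exact hψ a ha
  rw [hSS] at hev
  have hlim : Tendsto (fun s : ℝ => δ * Real.log (1 / (s - 1)) - C₀) (𝓝[>] (1 : ℝ)) atTop := by
    refine tendsto_atTop_add_const_right _ _ (Tendsto.const_mul_atTop hδ ?_)
    refine Real.tendsto_log_atTop.comp ?_
    have h1 : Tendsto (fun s : ℝ => s - 1) (𝓝[>] (1 : ℝ)) (𝓝[>] (0 : ℝ)) := by
      rw [tendsto_nhdsWithin_iff]
      refine ⟨?_, ?_⟩
      · have : Tendsto (fun s : ℝ => s - 1) (𝓝 (1 : ℝ)) (𝓝 (1 - 1)) :=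
          (continuous_id.sub continuous_const).tendsto _
        rw [sub_self] at this
        exact this.mono_left nhdsWithin_le_nhds
      · filter_upwards [self_mem_nhdsWithin] with s hs
        exact Set.mem_Ioi.2 (sub_pos.2 (Set.mem_Ioi.1 hs))
    have h2 := tendsto_inv_nhdsGT_zero.comp h1
    refine h2.congr fun s => ?_
    rw [Function.comp_apply, one_div]
  obtain ⟨s, hs1, hs2⟩ := (hev.and (hlim.eventually_gt_atTop 0)).exists
  simp only [Set.indicator_empty, tsum_zero] at hs1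
  linarith

end

end Pool.Agent.Helper86.TH
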