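import Pool.Agent.Helper86.TH.R0
import Pool.Agent.Helper86.TH.R1

/-!
# TH, block R: the reduction modulo a prime of degree one, core
-/

set_option autoImplicit false

namespace Pool.Agent.Helper86.TH

open Polynomial NumberField
open Pool.Agent.Helper61.TH

noncomputable section

section core

variable {s : ℕ} {d : Fin s → ℕ}

/-- the polynomial `N₁ F - x G` -/
def PP {R : Type*} [CommRing R] (c : Idx d → R) (N₁ : R) (b : Fin s) (x : R) : R[X] :=
  C N₁ * pl c b 0 - C x * pl c b 1

/-- its leading coefficient -/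
def lam {R : Type*} [CommRing R] (c : Idx d → R) (N₁ : R) (b : Fin s) (x : R) : R :=
  N₁ * lc c b 0 - x * lc c b 1

theorem PP_coeff {R : Type*} [CommRing R] (c : Idx d → R) (N₁ : R) (b : Fin s) (x : R) :
    (PP c N₁ b x).coeff (d b) = lam c N₁ b x := by
  rw [PP, coeff_sub, coeff_C_mul, coeff_C_mul, coeff_pl_top, coeff_pl_top, lam]

theorem PP_natDegree {R : Type*} [CommRing R] (c : Idx d → R) (N₁ : R) (b : Fin s) (x : R)
    (h : lam c N₁ b x ≠ 0) : (PP c N₁ b x).natDegree = d b := by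
  refine natDegree_eq_of_le_of_coeff_ne_zero ?_ (by rw [PP_coeff]; exact h)
  rw [PP]
  refine (natDegree_sub_le _ _).trans (max_le ?_ ?_)
  · exact (natDegree_C_mul_le _ _).trans (natDegree_pl c b 0)
  · exact (natDegree_C_mul_le _ _).trans (natDegree_pl c b 1)

theorem PP_leadingCoeff {R : Type*} [CommRing R] (c : Idx d → R) (N₁ : R) (b : Fin s) (x : R)
    (h : lam c N₁ b x ≠ 0) : (PP c N₁ b x).leadingCoeff = lam c N₁ b x := by
  rw [leadingCoeff, PP_natDegree c N₁ b x h, PP_coeff]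

theorem PP_eval₂ {R S : Type*} [CommRing R] [CommRing S] (f : R →+* S) (c : Idx d → R) (N₁ : R)
    (b : Fin s) (x : R) (y : S) : eval₂ f y (PP c N₁ b x) =
      f N₁ * eval y (pl (fun q => f (c q)) b 0) - f x * eval y (pl (fun q => f (c q)) b 1) := by
  rw [PP, eval₂_sub, eval₂_mul, eval₂_mul, eval₂_C, eval₂_C, ← eval_map, ← eval_map, map_pl,
    map_pl]

theorem natDegree_wr {R : Type*} [CommRing R] (c : Idx d → R) (a : Fin s) (hd : 1 ≤ d a) :
    (wr c a).natDegree ≤ 2 * d a - 2 := by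
  have h0 := natDegree_pl c a 0
  have h1 := natDegree_pl c a 1
  have h0' : (derivative (pl c a 0)).natDegree ≤ d a - 1 :=
    (natDegree_derivative_le _).trans (by omega)
  have h1' : (derivative (pl c a 1)).natDegree ≤ d a - 1 :=
    (natDegree_derivative_le _).trans (by omega)
  have hle : (wr c a).natDegree ≤ 2 * d a - 1 := by
    rw [wr]
    refine (natDegree_sub_le _ _).trans (max_le ?_ ?_)
    · exact natDegree_mul_le.trans (by omega)
    · exact natDegree_mul_le.trans (by omega)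
  have hco : (wr c a).coeff (2 * d a - 1) = 0 := by
    rw [wr, coeff_sub]
    have e1 : 2 * d a - 1 = (d a - 1) + d a := by omega
    have e2 : 2 * d a - 1 = d a + (d a - 1) := by omega
    conv_lhs => rw [e1]
    rw [coeff_mul_add_eq_of_natDegree_le h0' h1]
    rw [← e1, e2, coeff_mul_add_eq_of_natDegree_le h0 h1', coeff_derivative, coeff_derivative,
      Nat.sub_add_cancel hd]
    ring
  rw [natDegree_le_iff_coeff_eq_zero]
  intro n hn
  by_cases hn' : n = 2 * d a - 1
  · rw [hn', hco]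
  · exact coeff_eq_zero_of_natDegree_lt (by omega)

theorem core {K M Ω : Type} [Field K] [NumberField K] [Field M] [NumberField M] [Algebra K M]
    [Field Ω] [Algebra K Ω] [Algebra M Ω] [IsScalarTower K M Ω] [IsAlgClosed Ω]
    (hd : ∀ a, 2 ≤ d a) (c : Idx d → K) (γ : Ω ≃ₐ[M] Ω)
    (top : ∀ a, (wr c a).coeff (2 * d a - 2) ≠ 0)
    (hsp : ∀ a, ((wr c a).map (algebraMap K M)).Splits)
    (lead : ∀ a b (z : M), aeval z (wr c a) = 0 →
      algebraMap K M (lc c b 0) ≠ z * algebraMap K M (lc c b 1))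
    (move : ∀ a b (z : M) (y : Ω), aeval z (wr c a) = 0 →
      aeval y (pl c b 0) = algebraMap M Ω z * aeval y (pl c b 1) → γ y ≠ y) :
    ∃ (p : ℕ) (_ : Fact p.Prime) (ψ : 𝓞 M →+* ZMod p) (N : ℕ) (c' : Idx d → 𝓞 K),
      3 ≤ p ∧ N ≠ 0 ∧ (∀ q, (c' q : K) = N * c q) ∧
      HypU (fun q => ψ (algebraMap (𝓞 K) (𝓞 M) (c' q))) := by
  classical
  obtain ⟨N, hN, hc'⟩ := exists_den (Finset.univ.image c)
  choose c' hc'2 using fun q => hc' (c q) (Finset.mem_image_of_mem c (Finset.mem_univ q))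
  have hNM : (N : M) ≠ 0 := Nat.cast_ne_zero.2 hN
  set cM : Idx d → 𝓞 M := fun q => algebraMap (𝓞 K) (𝓞 M) (c' q) with hcM
  have hcMv : ∀ q, algebraMap (𝓞 M) M (cM q) = (N : M) * algebraMap K M (c q) := by
    intro q
    have h1 : algebraMap (𝓞 M) M (cM q) = algebraMap K M (c' q : K) := rfl
    rw [h1, hc'2, map_mul, map_natCast]
  -- zeros of the Wronskians
  set Z : Finset M := Finset.univ.biUnion fun a => ((wr c a).map (algebraMap K M)).roots.toFinset
    with hZ
  have hwr0 : ∀ a, wr c a ≠ 0 := by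
    intro a h0
    apply top a
    rw [h0, coeff_zero]
  have hZmem : ∀ z, z ∈ Z ↔ ∃ a, aeval z (wr c a) = 0 := by
    intro z
    rw [hZ, Finset.mem_biUnion]
    refine exists_congr fun a => ?_
    rw [Multiset.mem_toFinset, mem_roots (Polynomial.map_ne_zero (hwr0 a)), IsRoot.def, eval_map_algebraMap]
    simp
  obtain ⟨N₁, hN₁, hz⟩ := exists_den Z
  have hN₁M : (N₁ : M) ≠ 0 := Nat.cast_ne_zero.2 hN₁
  choose! ζ hζ using hz
  set N₁' : 𝓞 M := (N₁ : 𝓞 M) with hN₁'
  have hN₁'v : algebraMap (𝓞 M) M N₁' = (N₁ : M) := map_natCast _ _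
  have hlcM : ∀ b i, algebraMap (𝓞 M) M (lc cM b i) = (N : M) * algebraMap K M (lc c b i) :=
    fun b i => hcMv _
  have hlam : ∀ b, ∀ z ∈ Z, lam cM N₁' b (ζ z) ≠ 0 := by
    intro b z hzZ h0
    obtain ⟨a, ha⟩ := (hZmem z).1 hzZ
    have h1 := congrArg (algebraMap (𝓞 M) M) h0
    rw [lam, map_sub, map_mul, map_mul, map_zero, hlcM, hlcM, hN₁'v] at h1
    have h2 : algebraMap (𝓞 M) M (ζ z) = N₁ * z := hζ z hzZ
    rw [h2] at h1
    have h3 : (N₁ : M) * N * (algebraMap K M (lc c b 0) - z * algebraMap K M (lc c b 1)) = 0 := by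
      rw [← h1]; ring
    rcases mul_eq_zero.1 h3 with h4 | h4
    · exact mul_ne_zero hN₁M hNM h4
    · exact lead a b z ha (sub_eq_zero.1 h4)
  set h : (𝓞 M)[X] := ∏ b, ∏ z ∈ Z, integralNormalization (PP cM N₁' b (ζ z)) with hh
  have hPP0 : ∀ b, ∀ z ∈ Z, PP cM N₁' b (ζ z) ≠ 0 := by
    intro b z hzZ h0
    apply hlam b z hzZ
    rw [← PP_coeff, h0, coeff_zero]
  have hm : h.Monic := monic_prod_of_monic _ _ fun b _ => monic_prod_of_monic _ _ fun z hzZ =>
    monic_integralNormalization (hPP0 b z hzZ)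
  have hmove : ∀ w : Ω, eval₂ ((algebraMap M Ω).comp (algebraMap (𝓞 M) M)) w h = 0 →
      γ w ≠ w := by
    intro w hw
    rw [hh, eval₂_finsetProd, Finset.prod_eq_zero_iff] at hw
    obtain ⟨b, -, hw⟩ := hw
    rw [eval₂_finsetProd, Finset.prod_eq_zero_iff] at hw
    obtain ⟨z, hzZ, hw⟩ := hw
    set ι : 𝓞 M →+* Ω := (algebraMap M Ω).comp (algebraMap (𝓞 M) M) with hι
    have hl0 : ι (lam cM N₁' b (ζ z)) ≠ 0 := by
      rw [hι, RingHom.comp_apply]
      intro h0
      rw [map_eq_zero] at h0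
      exact hlam b z hzZ (RingOfIntegers.coe_injective (by rw [h0, map_zero]))
    obtain ⟨a, ha⟩ := (hZmem z).1 hzZ
    have h1 := integralNormalization_eval₂_leadingCoeff_mul (p := PP cM N₁' b (ζ z))
      (by rw [PP_natDegree _ _ _ _ (hlam b z hzZ)]; have := hd b; omega) ι
      ((ι (lam cM N₁' b (ζ z)))⁻¹ * w)
    rw [PP_leadingCoeff _ _ _ _ (hlam b z hzZ), mul_inv_cancel_left₀ hl0, hw] at h1
    have h2 := (mul_eq_zero.1 h1.symm).resolve_left (pow_ne_zero _ hl0)
    set y := (ι (lam cM N₁' b (ζ z)))⁻¹ * w with hy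
    rw [PP_eval₂] at h2
    have hfun : ∀ q, ι (cM q) = algebraMap M Ω (N : M) * algebraMap K Ω (c q) := by
      intro q
      rw [hι, RingHom.comp_apply, hcMv, map_mul, ← IsScalarTower.algebraMap_apply K M Ω]
    have hpl : ∀ i, eval y (pl (fun q => ι (cM q)) b i) =
        algebraMap M Ω (N : M) * aeval y (pl c b i) := by
      intro i
      rw [pl_scale _ (fun q => algebraMap K Ω (c q)) _ hfun, eval_mul, eval_C, ← map_pl,
        eval_map_algebraMap]
    rw [hpl, hpl] at h2
    have h3 : ι N₁' = algebraMap M Ω (N₁ : M) := by rw [hι, RingHom.comp_apply, hN₁'v]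
    have h4 : ι (ζ z) = algebraMap M Ω (N₁ : M) * algebraMap M Ω z := by
      rw [hι, RingHom.comp_apply, ← map_mul]
      exact congrArg _ (hζ z hzZ)
    rw [h3, h4] at h2
    have h5 : algebraMap M Ω (N₁ : M) * algebraMap M Ω (N : M) *
        (aeval y (pl c b 0) - algebraMap M Ω z * aeval y (pl c b 1)) = 0 := by
      rw [← h2]; ring
    have h6 : algebraMap M Ω (N₁ : M) * algebraMap M Ω (N : M) ≠ 0 := by
      rw [← map_mul, Ne, map_eq_zero]
      exact mul_ne_zero hN₁M hNM
    have h7 := move a b z y ha (sub_eq_zero.1 ((mul_eq_zero.1 h5).resolve_left h6))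
    intro hγ
    apply h7
    rw [hy, map_mul, hγ, map_inv₀]
    congr 2
    exact γ.commutes _
  -- the bad primes
  have htop : ∀ a, (wr cM a).coeff (2 * d a - 2) ≠ 0 := by
    intro a h0
    have h1 := congrArg (algebraMap (𝓞 M) M) h0
    rw [map_zero, ← coeff_map, map_wr, wr_scale _ (fun q => algebraMap K M (c q)) _ hcMv,
      coeff_C_mul, ← map_wr, coeff_map] at h1
    rcases mul_eq_zero.1 h1 with h2 | h2
    · exact pow_ne_zero _ hNM h2
    · rw [map_eq_zero] at h2
      exact top a h2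
  set x : 𝓞 M := 2 * N₁' * (∏ a, (d a : 𝓞 M)) * (∏ a, (wr cM a).coeff (2 * d a - 2)) *
    ∏ b, ∏ z ∈ Z, lam cM N₁' b (ζ z) with hx
  have hx0 : x ≠ 0 := by
    rw [hx]
    refine mul_ne_zero (mul_ne_zero (mul_ne_zero (mul_ne_zero two_ne_zero ?_) ?_) ?_) ?_
    · exact Nat.cast_ne_zero.2 hN₁
    · exact Finset.prod_ne_zero_iff.2 fun a _ => Nat.cast_ne_zero.2 (by have := hd a; omega)
    · exact Finset.prod_ne_zero_iff.2 fun a _ => htop a
    · exact Finset.prod_ne_zero_iff.2 fun b _ => Finset.prod_ne_zero_iff.2 fun z hzZ =>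
        hlam b z hzZ
  obtain ⟨n, hn, e, he⟩ := exists_nat_mult x hx0
  obtain ⟨p, hp, ψ, hpn, hroot⟩ := exists_prime γ h hm hmove n hn
  have hψx : ψ x ≠ 0 := by
    intro h0
    have h1 := congrArg ψ he
    rw [map_mul, h0, zero_mul, map_natCast, ZMod.natCast_eq_zero_iff] at h1
    exact hpn h1
  rw [hx, map_mul, map_mul, map_mul, map_mul] at hψx
  obtain ⟨hψ1, hψl⟩ := mul_ne_zero_iff.1 hψx
  obtain ⟨hψ2, hψt⟩ := mul_ne_zero_iff.1 hψ1
  obtain ⟨hψ3, hψd⟩ := mul_ne_zero_iff.1 hψ2
  obtain ⟨hψ4, hψN⟩ := mul_ne_zero_iff.1 hψ3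
  rw [map_prod, Finset.prod_ne_zero_iff] at hψl hψt hψd
  -- the splitting
  have hkey : ∀ a, ∃ m : Multiset M, (∀ z ∈ m, z ∈ Z) ∧
      C (ψ N₁') ^ Multiset.card m * (wr cM a).map ψ = C (ψ ((wr cM a).coeff (2 * d a - 2))) *
        (m.map fun z => C (ψ N₁') * X - C (ψ (ζ z))).prod := by
    intro a
    set W := (wr c a).map (algebraMap K M) with hW
    have hmZ : ∀ z ∈ W.roots, z ∈ Z := by
      intro z hz
      rw [hZ, Finset.mem_biUnion]
      exact ⟨a, Finset.mem_univ a, Multiset.mem_toFinset.2 hz⟩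
    refine ⟨W.roots, hmZ, ?_⟩
    have hdeg : W.natDegree = 2 * d a - 2 := by
      rw [hW, natDegree_map]
      exact natDegree_eq_of_le_of_coeff_ne_zero (natDegree_wr c a (by have := hd a; omega)) (top a)
    have hWm : (wr cM a).map (algebraMap (𝓞 M) M) = C ((N : M) ^ 2) * W := by
      rw [map_wr, wr_scale _ (fun q => algebraMap K M (c q)) _ hcMv, ← map_wr]
    have hint : C N₁' ^ Multiset.card W.roots * wr cM a = C ((wr cM a).coeff (2 * d a - 2)) *
        (W.roots.map fun z => C N₁' * X - C (ζ z)).prod := by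
      apply Polynomial.map_injective (algebraMap (𝓞 M) M) RingOfIntegers.coe_injective
      rw [Polynomial.map_mul, Polynomial.map_mul, Polynomial.map_pow, map_C, map_C, hWm,
        Polynomial.map_multiset_prod, Multiset.map_map, ← coeff_map, hWm, coeff_C_mul, ← hdeg,
        coeff_natDegree]
      have h1 : (W.roots.map (Polynomial.map (algebraMap (𝓞 M) M) ∘
          fun z => C N₁' * X - C (ζ z))) = W.roots.map fun z => C (N₁ : M) * (X - C z) := by
        refine Multiset.map_congr rfl fun z hz => ?_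
        rw [Function.comp_apply, Polynomial.map_sub, Polynomial.map_mul, map_C, map_X, map_C,
          hN₁'v]
        have h2 : algebraMap (𝓞 M) M (ζ z) = N₁ * z := hζ z (hmZ z hz)
        rw [h2, C_mul, mul_sub]
      rw [h1, Multiset.prod_map_mul, Multiset.map_const', Multiset.prod_replicate, hN₁'v]
      have h2 : W = C W.leadingCoeff * (W.roots.map fun z => X - C z).prod :=
        (hsp a).eq_prod_roots
      calc C (N₁ : M) ^ Multiset.card W.roots * (C ((N : M) ^ 2) * W)
          = C (N₁ : M) ^ Multiset.card W.roots * (C ((N : M) ^ 2) * (C W.leadingCoeff *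
            (W.roots.map fun z => X - C z).prod)) := by rw [← h2]
        _ = _ := by rw [C_mul]; ring
    have h3 := congrArg (Polynomial.map ψ) hint
    rw [Polynomial.map_mul, Polynomial.map_mul, Polynomial.map_pow, map_C, map_C,
      Polynomial.map_multiset_prod, Multiset.map_map] at h3
    rw [h3]
    congr 2
    refine Multiset.map_congr rfl fun z _ => ?_
    rw [Function.comp_apply, Polynomial.map_sub, Polynomial.map_mul, map_C, map_X, map_C]
  have hzero : ∀ a z', eval z' ((wr cM a).map ψ) = 0 → ∃ z ∈ Z, ψ N₁' * z' = ψ (ζ z) := by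
    intro a z' hz'
    obtain ⟨m, hmZ, hm'⟩ := hkey a
    have h1 := congrArg (eval z') hm'
    rw [eval_mul, hz', mul_zero, eval_mul, eval_C, eval_multiset_prod, Multiset.map_map] at h1
    have h2 := (mul_eq_zero.1 h1.symm).resolve_left (hψt a (Finset.mem_univ a))
    rw [Multiset.prod_eq_zero_iff, Multiset.mem_map] at h2
    obtain ⟨z, hzm, hz0⟩ := h2
    refine ⟨z, hmZ z hzm, ?_⟩
    rw [Function.comp_apply, eval_sub, eval_mul, eval_C, eval_X, eval_C, sub_eq_zero] at hz0
    exact hz0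
  refine ⟨p, hp, ψ, N, c', ?_, hN, hc'2, ?_⟩
  · have h2 : p ≠ 2 := by
      rintro rfl
      apply hψ4
      rw [map_ofNat]
      rfl
    have := hp.out.two_le
    omega
  · constructor
    · intro a h0
      apply hψd a (Finset.mem_univ a)
      rw [map_natCast]
      exact h0
    · intro a h0
      apply hψt a (Finset.mem_univ a)
      rw [← coeff_map, map_wr]
      exact h0
    · intro a
      obtain ⟨m, hmZ, hm'⟩ := hkey a
      rw [map_wr] at hm'
      have h1 : (C (ψ N₁') ^ Multiset.card m * wr (fun q => ψ (cM q)) a).Splits := by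
        rw [hm']
        refine Splits.C_mul (Splits.multisetProd fun f hf => ?_) _
        obtain ⟨z, -, rfl⟩ := Multiset.mem_map.1 hf
        refine Splits.of_natDegree_le_one ?_
        exact (natDegree_sub_le _ _).trans (max_le ((natDegree_C_mul_le _ _).trans
          natDegree_X_le) (by rw [natDegree_C]; exact Nat.zero_le _))
      exact (splits_mul_iff_right (pow_ne_zero _ (C_ne_zero.2 hψN))
        ((Splits.C _).pow _)).1 h1
    · intro a b z' hz' h0
      rw [← map_wr] at hz'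
      obtain ⟨z, hzZ, hzz⟩ := hzero a z' hz'
      have h1 := (Finset.prod_ne_zero_iff.1 (by
        have := hψl b (Finset.mem_univ b)
        rwa [map_prod] at this)) z hzZ
      apply h1
      rw [lam, map_sub, map_mul, map_mul, sub_eq_zero, ← hzz, mul_assoc]
      congr 1
    · intro a b z' y hz' h0
      rw [← map_wr] at hz'
      obtain ⟨z, hzZ, hzz⟩ := hzero a z' hz'
      have h1 : eval₂ ψ y (PP cM N₁' b (ζ z)) = 0 := by
        rw [PP_eval₂, ← hzz, sub_eq_zero, mul_assoc]
        congr 1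
      have h2 := integralNormalization_eval₂_leadingCoeff_mul (p := PP cM N₁' b (ζ z))
        (by rw [PP_natDegree _ _ _ _ (hlam b z hzZ)]; have := hd b; omega) ψ y
      rw [h1, mul_zero] at h2
      apply hroot (ψ (PP cM N₁' b (ζ z)).leadingCoeff * y)
      rw [eval_map, hh, eval₂_finsetProd]
      refine Finset.prod_eq_zero (Finset.mem_univ b) ?_
      rw [eval₂_finsetProd]
      exact Finset.prod_eq_zero hzZ h2

end core

end

end Pool.Agent.Helper86.TH
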